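import Pool.Agent.RCM.StmtsA
import Pool.Agent.Helper35_RCM.Base

/-!
# MP_33201b_co, squad RCA, row SA1 (helper44)
-/

set_option autoImplicit false

namespace Pool.Agent.RCM.H44

open Set Pool.Agent.RCM

universe u

section

variable {E : Type u} {K : Type} {M N : Matroid E} {κ : E → K} {X : Set K}

theorem op_succ {a : ℕ} {T P T' P' : Set E} (h : Op M N κ X a T P T' P') :
    Op M N κ X (a + 1) T P T' P' := by
  induction h with
  | rfl a => exact Op.rfl _ _ _
  | move a T P T' P' T'' _ hm ih => exact Op.move _ _ _ _ _ _ ih hm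
  | frz a T P T' P' r _ hr ih => exact Op.frz _ _ _ _ _ _ ih hr

theorem op_of_rn {P : Set E} {a : ℕ} {T T' : Set E} (h : Rn M N κ P X a T T') :
    Op M N κ X a T P T' P := by
  induction h with
  | rfl a T => exact Op.rfl _ _ _
  | step a T T' T'' _ hm ih => exact Op.move _ _ _ _ _ _ ih hm

end

theorem sa1 : Sa1Stmt.{u} := by
  intro E K _ _ M N κ s t P X T m Z y hCol hMx hSt hZP hyZ hyT hyG
  obtain ⟨-, T₀, hR₀, hy₀⟩ := hyG
  have key : ∀ (a : ℕ) (S T₁ : Set E), Rn M N κ P X a S T₁ → S = T →
      St M N κ P X t T₁ ∧ (Z ∩ T ⊆ T₁ ∨ ∃ (T' : Set E) (y' : E), Op M N κ X a T P T' P ∧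
        y' ∉ M.closure (T' ∪ P) ∧ y' ∈ Z ∧ y' ∈ T ∧ Z \ T' = insert y' (Z \ T)) := by
    intro a S T₁ hR
    induction hR with
    | rfl a S =>
      intro hS
      subst hS
      exact ⟨hSt, Or.inl inter_subset_right⟩
    | step a S T₁ T₂ hR hm ih =>
      intro hS
      obtain ⟨hSt₁, hor⟩ := ih hS
      subst hS
      have hSt₂ : St M N κ P X t T₂ :=
        ((Pool.Agent.RCM.H35.mvb' E K M N κ s t P X T₁ hCol hMx hSt₁).2 T₂ hm).1
      refine ⟨hSt₂, ?_⟩
      rcases hor with hsub | ⟨T', y', h1, h2, h3, h4, h5⟩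
      · have hm' := hm
        obtain ⟨x, y₁, hy₁, hx1, hx2, hx3, hx4, rfl⟩ := hm
        by_cases hy₁Z : y₁ ∈ Z ∩ S
        · right
          have hxy : y₁ ≠ x := by
            intro h
            exact hx1 ⟨y₁, hy₁, by rw [h]⟩
          have hy₁P : y₁ ∉ P := fun h => (Set.disjoint_left.mp hSt₁.dj) hy₁ h
          have hxE : x ∈ M.E := (hCol.indM (κ x)).subset_ground (by simp)
          have hxT : x ∉ T₁ ∪ P := fun h =>
            hx3 (M.subset_closure (T₁ ∪ P) hSt₁.fr.subset_ground h)
          have hins : M.Indep (insert x (T₁ ∪ P)) :=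
            (hSt₁.fr.insert_indep_iff_of_notMem hxT).mpr ⟨hxE, hx3⟩
          have heq : insert y₁ (insert x (T₁ \ {y₁}) ∪ P) = insert x (T₁ ∪ P) := by
            ext w
            simp only [mem_insert_iff, mem_union, mem_sdiff, mem_singleton_iff]
            constructor
            · rintro (rfl | (rfl | ⟨h, -⟩) | h)
              · exact Or.inr (Or.inl hy₁)
              · exact Or.inl rfl
              · exact Or.inr (Or.inl h)
              · exact Or.inr (Or.inr h)
            · rintro (rfl | h | h)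
              · exact Or.inr (Or.inl (Or.inl rfl))
              · by_cases hw : w = y₁
                · exact Or.inl hw
                · exact Or.inr (Or.inl (Or.inr ⟨h, hw⟩))
              · exact Or.inr (Or.inr h)
          have hy₁n : y₁ ∉ insert x (T₁ \ {y₁}) := by
            simp only [mem_insert_iff, mem_sdiff, mem_singleton_iff, not_true_eq_false, and_false,
              or_false]
            exact hxy
          have hy₁n' : y₁ ∉ insert x (T₁ \ {y₁}) ∪ P := by
            rintro (h | h)
            · exact hy₁n h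
            · exact hy₁P h
          have hins' : M.Indep (insert y₁ (insert x (T₁ \ {y₁}) ∪ P)) := heq ▸ hins
          have hcl : y₁ ∉ M.closure (insert x (T₁ \ {y₁}) ∪ P) :=
            ((hSt₂.fr.insert_indep_iff_of_notMem hy₁n').mp hins').2
          refine ⟨insert x (T₁ \ {y₁}), y₁, Op.move _ _ _ _ _ _ (op_of_rn hR) hm', hcl, hy₁Z.1,
            hy₁Z.2, ?_⟩
          ext z
          constructor
          · rintro ⟨hzZ, hzn⟩
            by_cases hzS : z ∈ S
            · have hz1 : z ∈ T₁ := hsub ⟨hzZ, hzS⟩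
              by_cases hzy : z = y₁
              · exact Or.inl hzy
              · exact absurd (Or.inr ⟨hz1, hzy⟩) hzn
            · exact Or.inr ⟨hzZ, hzS⟩
          · rintro (rfl | hz)
            · exact ⟨hy₁Z.1, hy₁n⟩
            · exact ⟨hz.1, fun h => (Set.disjoint_left.mp hSt₂.dj) h (hZP hz)⟩
        · left
          intro z hz
          have hz1 := hsub hz
          refine Or.inr ⟨hz1, ?_⟩
          rintro rfl
          exact hy₁Z hz
      · exact Or.inr ⟨T', y', op_succ h1, h2, h3, h4, h5⟩
  rcases (key m T T₀ hR₀ rfl).2 with h | h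
  · exact absurd ⟨y, h ⟨hyZ, hyT⟩, rfl⟩ hy₀
  · exact h

end Pool.Agent.RCM.H44
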